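import Mathlib

namespace Pool.Agent.Results.MP_493890_gt.AllOneEmbedded

open Set Filter Topology

/-- Functionally closed sets: zero sets of continuous functions into `[0,1]`. -/
def FClosed {X : Type} [TopologicalSpace X] (A : Set X) : Prop :=
  ∃ f : X → ℝ, Continuous f ∧ (∀ x, 0 ≤ f x ∧ f x ≤ 1) ∧ A = {x | f x = 0}

/-- Functionally open sets: preimages of `(0,1]` under continuous functions into `[0,1]`. -/
def FOpen {X : Type} [TopologicalSpace X] (A : Set X) : Prop :=
  ∃ f : X → ℝ, Continuous f ∧ (∀ x, 0 ≤ f x ∧ f x ≤ 1) ∧ A = {x | 0 < f x}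

/-- Functionally `F_σ` sets. -/
def FSigma {X : Type} [TopologicalSpace X] (A : Set X) : Prop :=
  ∃ C : ℕ → Set X, (∀ n, FClosed (C n)) ∧ A = ⋃ n, C n

/-- Functionally `G_δ` sets. -/
def GDelta {X : Type} [TopologicalSpace X] (A : Set X) : Prop :=
  ∃ C : ℕ → Set X, (∀ n, FOpen (C n)) ∧ A = ⋂ n, C n

/-- `E` is `1`-embedded in `X`. -/
def OneEmbedded {X : Type} [TopologicalSpace X] (E : Set X) : Prop :=
  (∀ S : Set E, FSigma S → ∃ B : Set X, FSigma B ∧ S = {x : E | (x : X) ∈ B}) ∧
  (∀ S : Set E, GDelta S → ∃ B : Set X, GDelta B ∧ S = {x : E | (x : X) ∈ B})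

/-- The nonprincipal ultrafilters on `ℝ` that contain a countable set. -/
def UF : Type := {u : Ultrafilter ℝ // (∃ C : Set ℝ, C.Countable ∧ C ∈ u) ∧ ∀ y : ℝ, {y} ∉ u}

/-- The points of the space. -/
inductive Pt : Type
  | base (y : ℝ) : Pt
  | lim (j : ℕ) (u : UF) : Pt
  | iso (y : ℝ) (j : ℕ) (u : UF) : Pt

/-- The topology: the points `iso y j u` are isolated; a neighbourhood of `base y` contains all
`iso y j u` with `j` large; a neighbourhood of `lim j u` contains `iso y j u` for `u`-many `y`. -/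
instance : TopologicalSpace Pt where
  IsOpen U := (∀ y, Pt.base y ∈ U → ∃ n, ∀ j ≥ n, ∀ u, Pt.iso y j u ∈ U) ∧
    (∀ j u, Pt.lim j u ∈ U → {y | Pt.iso y j u ∈ U} ∈ u.1)
  isOpen_univ := ⟨fun _ _ => ⟨0, fun _ _ _ => mem_univ _⟩,
    fun _ _ _ => mem_of_superset univ_mem (fun _ _ => mem_univ _)⟩
  isOpen_inter := by
    rintro U V ⟨h1, h2⟩ ⟨h3, h4⟩
    refine ⟨?_, ?_⟩
    · rintro y ⟨hU, hV⟩
      obtain ⟨n, hn⟩ := h1 y hU
      obtain ⟨m, hm⟩ := h3 y hV
      exact ⟨max n m, fun j hj u => ⟨hn j ((le_max_left _ _).trans hj) u,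
        hm j ((le_max_right _ _).trans hj) u⟩⟩
    · rintro j u ⟨hU, hV⟩
      exact inter_mem (h2 j u hU) (h4 j u hV)
  isOpen_sUnion := by
    intro S hS
    refine ⟨?_, ?_⟩
    · rintro y ⟨U, hU, hy⟩
      obtain ⟨n, hn⟩ := (hS U hU).1 y hy
      exact ⟨n, fun j hj u => ⟨U, hU, hn j hj u⟩⟩
    · rintro j u ⟨U, hU, hy⟩
      exact mem_of_superset ((hS U hU).2 j u hy) (fun y hy => ⟨U, hU, hy⟩)

lemma isOpen_iff (U : Set Pt) : IsOpen U ↔
    (∀ y, Pt.base y ∈ U → ∃ n, ∀ j ≥ n, ∀ u, Pt.iso y j u ∈ U) ∧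
    (∀ j u, Pt.lim j u ∈ U → {y | Pt.iso y j u ∈ U} ∈ u.1) := Iff.rfl

lemma continuous_of (f : Pt → ℝ)
    (h1 : ∀ y, ∀ V : Set ℝ, IsOpen V → f (Pt.base y) ∈ V → ∃ n, ∀ j ≥ n, ∀ u, f (Pt.iso y j u) ∈ V)
    (h2 : ∀ j u, ∀ V : Set ℝ, IsOpen V → f (Pt.lim j u) ∈ V → {y | f (Pt.iso y j u) ∈ V} ∈ u.1) :
    Continuous f := by
  rw [continuous_def]
  intro V hV
  rw [isOpen_iff]
  exact ⟨fun y hy => h1 y V hV hy, fun j u hu => h2 j u V hV hu⟩

lemma finite_notMem (u : UF) {s : Set ℝ} (hs : s.Finite) : s ∉ u.1 := by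
  intro h
  obtain ⟨y, _, hy⟩ := Ultrafilter.eq_pure_of_finite_mem hs h
  apply u.2.2 y
  rw [hy]
  exact Ultrafilter.mem_pure.mpr rfl

lemma exists_g (u : UF) : ∃ g : ℝ → ℝ, (∀ y, 0 < g y ∧ g y ≤ 1) ∧ ∀ ε > 0, {y | g y < ε} ∈ u.1 := by
  classical
  obtain ⟨C, hC, hCu⟩ := u.2.1
  obtain ⟨e, he⟩ := Set.countable_iff_exists_injOn.mp hC
  refine ⟨fun y => if y ∈ C then 1 / ((e y : ℝ) + 1) else 1, ?_, ?_⟩
  · intro y
    by_cases hy : y ∈ C
    · simp only [hy, if_true]
      refine ⟨by positivity, ?_⟩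
      rw [div_le_one (by positivity)]
      linarith [(Nat.cast_nonneg (e y) : (0 : ℝ) ≤ e y)]
    · simp [hy]
  · intro ε hε
    obtain ⟨N, hN⟩ := exists_nat_gt (1 / ε)
    have hfin : (C ∩ {y | e y < N}).Finite := by
      apply Set.Finite.of_finite_image (f := e)
      · apply (finite_lt_nat N).subset
        rintro _ ⟨y, hy, rfl⟩
        exact hy.2
      · exact he.mono inter_subset_left
    have h1 := Ultrafilter.compl_mem_iff_notMem.mpr (finite_notMem u hfin)
    apply mem_of_superset (inter_mem hCu h1)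
    rintro y ⟨hy1, hy2⟩
    have hy3 : N ≤ e y := by
      by_contra hc
      exact hy2 ⟨hy1, not_le.mp hc⟩
    show (if y ∈ C then 1 / ((e y : ℝ) + 1) else 1) < ε
    simp only [hy1, if_true]
    have h2 : (N : ℝ) ≤ e y := by exact_mod_cast hy3
    rw [div_lt_iff₀ (by positivity)]
    rw [div_lt_iff₀ hε] at hN
    nlinarith

noncomputable def g (u : UF) : ℝ → ℝ := (exists_g u).choose

lemma g_pos (u : UF) (y : ℝ) : 0 < g u y := ((exists_g u).choose_spec.1 y).1
lemma g_le (u : UF) (y : ℝ) : g u y ≤ 1 := ((exists_g u).choose_spec.1 y).2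
lemma g_lim (u : UF) (ε : ℝ) (hε : 0 < ε) : {y | g u y < ε} ∈ u.1 := (exists_g u).choose_spec.2 ε hε

lemma fclosed_of_clopen {X : Type} [TopologicalSpace X] {A : Set X} (hA : IsClopen A) :
    FClosed A := by
  classical
  refine ⟨indicator Aᶜ (fun _ => 1), ?_, ?_, ?_⟩
  · apply Continuous.indicator
    · intro x hx
      rw [hA.compl.frontier_eq] at hx
      exact hx.elim
    · exact continuous_const
  · intro x
    by_cases hx : x ∈ Aᶜ
    · rw [indicator_of_mem hx]; norm_num
    · rw [indicator_of_notMem hx]; norm_num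
  · ext x
    by_cases hx : x ∈ A
    · simp [hx]
    · simp [hx]

/-- Sets of base points are functionally closed. -/
lemma fclosed_base (S : Set ℝ) : FClosed (Pt.base '' S) := by
  classical
  let f : Pt → ℝ := fun p => match p with
    | Pt.base y => if y ∈ S then 0 else 1
    | Pt.lim j u => if S ∈ u.1 then 1 / ((j : ℝ) + 1) else 1
    | Pt.iso y j _ => if y ∈ S then 1 / ((j : ℝ) + 1) else 1
  have hj : ∀ j : ℕ, 0 < 1 / ((j : ℝ) + 1) ∧ 1 / ((j : ℝ) + 1) ≤ 1 := by
    intro j
    refine ⟨by positivity, ?_⟩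
    rw [div_le_one (by positivity)]
    linarith [(Nat.cast_nonneg j : (0 : ℝ) ≤ j)]
  refine ⟨f, ?_, ?_, ?_⟩
  · apply continuous_of
    · intro y V hV hy
      by_cases hyS : y ∈ S
      · simp only [f, hyS, if_true] at hy ⊢
        have h1 : Tendsto (fun n : ℕ => 1 / ((n : ℝ) + 1)) atTop (𝓝 0) :=
          tendsto_one_div_add_atTop_nhds_zero_nat
        obtain ⟨n, hn⟩ := eventually_atTop.mp (h1.eventually_mem (hV.mem_nhds hy))
        exact ⟨n, fun j hj _ => hn j hj⟩
      · simp only [f, hyS, if_false] at hy ⊢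
        exact ⟨0, fun _ _ _ => hy⟩
    · intro j u V _ hu
      by_cases hS : S ∈ u.1
      · simp only [f, hS, if_true] at hu ⊢
        apply mem_of_superset hS
        intro y hy
        simp only [mem_ofPred_eq, hy, if_true]
        exact hu
      · simp only [f, hS, if_false] at hu ⊢
        apply mem_of_superset (Ultrafilter.compl_mem_iff_notMem.mpr hS)
        intro y hy
        have hy' : y ∉ S := hy
        simp only [mem_ofPred_eq, hy', if_false]
        exact hu
  · intro p
    cases p with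
    | base y => by_cases hy : y ∈ S <;> simp [f, hy]
    | lim j u =>
      by_cases hS : S ∈ u.1
      · simp only [f, hS, if_true]; exact ⟨(hj j).1.le, (hj j).2⟩
      · simp [f, hS]
    | iso y j u =>
      by_cases hy : y ∈ S
      · simp only [f, hy, if_true]; exact ⟨(hj j).1.le, (hj j).2⟩
      · simp [f, hy]
  · ext p
    cases p with
    | base y => by_cases hy : y ∈ S <;> simp [f, hy]
    | lim j u =>
      have := (hj j).1.ne'
      by_cases hS : S ∈ u.1
      · simp only [mem_image, reduceCtorEq, and_false, exists_false, mem_ofPred_eq, f, hS,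
          if_true, false_iff]
        exact this
      · simp [f, hS]
    | iso y j u =>
      have := (hj j).1.ne'
      by_cases hy : y ∈ S
      · simp only [mem_image, reduceCtorEq, and_false, exists_false, mem_ofPred_eq, f, hy,
          if_true, false_iff]
        exact this
      · simp [f, hy]

/-- Sets of limit points of one level are functionally closed. -/
lemma fclosed_lim (j : ℕ) (S : Set UF) : FClosed (Pt.lim j '' S) := by
  classical
  let f : Pt → ℝ := fun p => match p with
    | Pt.base _ => 1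
    | Pt.lim j' u => if j' = j ∧ u ∈ S then 0 else 1
    | Pt.iso y j' u => if j' = j ∧ u ∈ S then g u y else 1
  refine ⟨f, ?_, ?_, ?_⟩
  · apply continuous_of
    · intro y V _ hy
      refine ⟨j + 1, fun j' hj' u => ?_⟩
      have h1 : ¬ (j' = j ∧ u ∈ S) := by rintro ⟨h, _⟩; omega
      simp only [f, h1, if_false]
      exact hy
    · intro j' u V hV hu
      by_cases h : j' = j ∧ u ∈ S
      · simp only [f, h, and_self, if_true] at hu ⊢
        obtain ⟨ε, hε, hball⟩ := Metric.isOpen_iff.mp hV 0 hu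
        apply mem_of_superset (g_lim u ε hε)
        intro y hy
        apply hball
        rw [Metric.mem_ball, Real.dist_eq, sub_zero, abs_of_pos (g_pos u y)]
        exact hy
      · simp only [f, h, if_false] at hu ⊢
        exact mem_of_superset univ_mem (fun y _ => hu)
  · intro p
    cases p with
    | base y => simp [f]
    | lim j' u => by_cases h : j' = j ∧ u ∈ S <;> simp [f, h]
    | iso y j' u =>
      by_cases h : j' = j ∧ u ∈ S
      · simp only [f, h, and_self, if_true]; exact ⟨(g_pos u y).le, g_le u y⟩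
      · simp [f, h]
  · ext p
    cases p with
    | base y => simp [f]
    | lim j' u =>
      by_cases h : j' = j ∧ u ∈ S
      · simp [f, h]
      · simp only [mem_image, Pt.lim.injEq, mem_ofPred_eq, f, h, if_false, one_ne_zero,
          iff_false, not_exists, not_and]
        intro x hx hj hxu
        subst hxu
        exact h ⟨hj.symm, hx⟩
    | iso y j' u =>
      have := (g_pos u y).ne'
      by_cases h : j' = j ∧ u ∈ S
      · simp only [mem_image, reduceCtorEq, and_false, exists_false, mem_ofPred_eq, f, h,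
          and_self, if_true, false_iff]
        exact this
      · simp [f, h]

/-- Sets of isolated points of one level that are bounded away from the limit points. -/
lemma fclosed_iso (j k : ℕ) (S : Set Pt) :
    FClosed {p | p ∈ S ∧ ∃ y u, p = Pt.iso y j u ∧ 1 / ((k : ℝ) + 1) ≤ g u y} := by
  apply fclosed_of_clopen
  constructor
  · rw [← isOpen_compl_iff, isOpen_iff]
    constructor
    · intro y _
      refine ⟨j + 1, fun j' hj' u => ?_⟩
      rintro ⟨_, y', u', h, _⟩
      rw [Pt.iso.injEq] at h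
      omega
    · intro j' u _
      apply mem_of_superset (g_lim u (1 / ((k : ℝ) + 1)) (by positivity))
      rintro y hy ⟨_, y', u', h, h2⟩
      rw [Pt.iso.injEq] at h
      obtain ⟨rfl, _, rfl⟩ := h
      exact absurd h2 (not_le.mpr hy)
  · rw [isOpen_iff]
    constructor
    · rintro y ⟨_, y', u', h, _⟩
      exact absurd h (by simp)
    · rintro j' u ⟨_, y', u', h, _⟩
      exact absurd h (by simp)

lemma fsigma_of_countable {X : Type} [TopologicalSpace X] {ι : Type} [Countable ι] [Nonempty ι]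
    (C : ι → Set X) (hC : ∀ i, FClosed (C i)) : FSigma (⋃ i, C i) := by
  obtain ⟨e, he⟩ := exists_surjective_nat ι
  exact ⟨fun n => C (e n), fun n => hC _, (he.iUnion_comp C).symm⟩

/-- All subsets of the space are functionally `F_σ`. -/
lemma all_fsigma (S : Set Pt) : FSigma S := by
  have h := fsigma_of_countable (ι := Unit ⊕ (ℕ ⊕ (ℕ × ℕ)))
    (Sum.elim (fun _ => Pt.base '' {y | Pt.base y ∈ S}) (Sum.elim
      (fun j => Pt.lim j '' {u | Pt.lim j u ∈ S})
      (fun jk => {p | p ∈ S ∧ ∃ y u, p = Pt.iso y jk.1 u ∧ 1 / ((jk.2 : ℝ) + 1) ≤ g u y})))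
    (by
      rintro (_ | j | jk)
      · exact fclosed_base _
      · exact fclosed_lim _ _
      · exact fclosed_iso _ _ _)
  convert h using 1
  ext p
  rw [mem_iUnion]
  constructor
  · intro hp
    cases p with
    | base y => exact ⟨Sum.inl (), y, hp, rfl⟩
    | lim j u => exact ⟨Sum.inr (Sum.inl j), u, hp, rfl⟩
    | iso y j u =>
      obtain ⟨k, hk⟩ := exists_nat_one_div_lt (g_pos u y)
      exact ⟨Sum.inr (Sum.inr (j, k)), hp, y, u, rfl, hk.le⟩
  · rintro ⟨(_ | j | jk), hp⟩
    · obtain ⟨y, hy, rfl⟩ := hp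
      exact hy
    · obtain ⟨y, hy, rfl⟩ := hp
      exact hy
    · exact hp.1

lemma all_gdelta (S : Set Pt) : GDelta S := by
  obtain ⟨C, hC, hS⟩ := all_fsigma Sᶜ
  refine ⟨fun n => (C n)ᶜ, fun n => ?_, ?_⟩
  · obtain ⟨f, hf, hf', hCf⟩ := hC n
    refine ⟨f, hf, hf', ?_⟩
    show (C n)ᶜ = _
    rw [hCf]
    ext x
    simp only [mem_compl_iff, mem_ofPred_eq]
    exact ⟨fun h => lt_of_le_of_ne (hf' x).1 (Ne.symm h), fun h => h.ne'⟩
  · rw [← compl_iUnion, ← hS, compl_compl]

lemma oneEmbedded (E : Set Pt) : OneEmbedded E := by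
  constructor
  · intro S _
    exact ⟨Subtype.val '' S, all_fsigma _, by ext x; simp⟩
  · intro S _
    exact ⟨Subtype.val '' S, all_gdelta _, by ext x; simp⟩

lemma clopen_base (y : ℝ) (n : ℕ) :
    IsClopen (insert (Pt.base y) {p | ∃ j u, n ≤ j ∧ p = Pt.iso y j u}) := by
  constructor
  · rw [← isOpen_compl_iff, isOpen_iff]
    constructor
    · intro y' hy'
      refine ⟨0, fun j _ u hc => ?_⟩
      rcases hc with hc | ⟨j', u', _, hc⟩
      · exact absurd hc (by simp)
      · rw [Pt.iso.injEq] at hc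
        apply hy'
        left
        rw [hc.1]
    · intro j u _
      apply mem_of_superset (Ultrafilter.compl_mem_iff_notMem.mpr (u.2.2 y))
      rintro y' hy' (hc | ⟨j', u', _, hc⟩)
      · exact absurd hc (by simp)
      · rw [Pt.iso.injEq] at hc
        exact hy' hc.1
  · rw [isOpen_iff]
    constructor
    · rintro y' (h | ⟨_, _, _, h⟩)
      · rw [Pt.base.injEq] at h
        subst h
        exact ⟨n, fun j hj u => Or.inr ⟨j, u, hj, rfl⟩⟩
      · exact absurd h (by simp)
    · rintro j u (h | ⟨_, _, _, h⟩)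
      · exact absurd h (by simp)
      · exact absurd h (by simp)

lemma clopen_lim (j : ℕ) (u : UF) (A : Set ℝ) (hA : A ∈ u.1) :
    IsClopen (insert (Pt.lim j u) {p | ∃ y ∈ A, p = Pt.iso y j u}) := by
  constructor
  · rw [← isOpen_compl_iff, isOpen_iff]
    constructor
    · intro y' _
      refine ⟨j + 1, fun j' hj' u' hc => ?_⟩
      rcases hc with hc | ⟨y, _, hc⟩
      · exact absurd hc (by simp)
      · rw [Pt.iso.injEq] at hc
        omega
    · intro j' u' h'
      apply mem_of_superset univ_mem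
      rintro y' _ (hc | ⟨y, _, hc⟩)
      · exact absurd hc (by simp)
      · rw [Pt.iso.injEq] at hc
        obtain ⟨_, rfl, rfl⟩ := hc
        exact h' (Or.inl rfl)
  · rw [isOpen_iff]
    constructor
    · rintro y' (h | ⟨_, _, h⟩)
      · exact absurd h (by simp)
      · exact absurd h (by simp)
    · rintro j' u' (h | ⟨_, _, h⟩)
      · rw [Pt.lim.injEq] at h
        obtain ⟨rfl, rfl⟩ := h
        exact mem_of_superset hA (fun y hy => Or.inr ⟨y, hy, rfl⟩)
      · exact absurd h (by simp)

lemma clopen_iso (y : ℝ) (j : ℕ) (u : UF) : IsClopen {Pt.iso y j u} := by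
  constructor
  · rw [← isOpen_compl_iff, isOpen_iff]
    constructor
    · intro y' _
      refine ⟨j + 1, fun j' hj' u' hc => ?_⟩
      rw [mem_singleton_iff, Pt.iso.injEq] at hc
      omega
    · intro j' u' _
      apply mem_of_superset (Ultrafilter.compl_mem_iff_notMem.mpr (u'.2.2 y))
      intro y' hy' hc
      rw [mem_singleton_iff, Pt.iso.injEq] at hc
      exact hy' hc.1
  · rw [isOpen_iff]
    constructor
    · intro y' h
      exact absurd h (by simp)
    · intro j' u' h
      exact absurd h (by simp)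

lemma exists_clopen (U : Set Pt) (hU : IsOpen U) (p : Pt) (hp : p ∈ U) :
    ∃ N : Set Pt, IsClopen N ∧ p ∈ N ∧ N ⊆ U := by
  cases p with
  | base y =>
    obtain ⟨n, hn⟩ := hU.1 y hp
    refine ⟨_, clopen_base y n, mem_insert _ _, ?_⟩
    rintro _ (rfl | ⟨j, u, hj, rfl⟩)
    · exact hp
    · exact hn j hj u
  | lim j u =>
    refine ⟨_, clopen_lim j u _ (hU.2 j u hp), mem_insert _ _, ?_⟩
    rintro _ (rfl | ⟨y, hy, rfl⟩)
    · exact hp
    · exact hy
  | iso y j u => exact ⟨_, clopen_iso y j u, rfl, by rintro _ rfl; exact hp⟩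

instance : CompletelyRegularSpace Pt where
  completely_regular := by
    classical
    intro x K hK hx
    obtain ⟨N, hN, hxN, hNK⟩ := exists_clopen Kᶜ hK.isOpen_compl x hx
    refine ⟨fun z => if z ∈ N then 0 else 1, ?_, by simp [hxN], ?_⟩
    · apply continuous_const.if
      · intro a ha
        have : frontier {a | a ∈ N} = frontier N := rfl
        rw [this, hN.frontier_eq] at ha
        exact ha.elim
      · exact continuous_const
    · intro z hz
      have : z ∉ N := fun hc => hNK hc hz
      simp [this]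

instance : T1Space Pt := by
  constructor
  intro p
  rw [← isOpen_compl_iff, isOpen_iff]
  constructor
  · intro y _
    cases p with
    | base y' => exact ⟨0, fun j _ u => by simp⟩
    | lim j' u' => exact ⟨0, fun j _ u => by simp⟩
    | iso y' j' u' =>
      refine ⟨j' + 1, fun j hj u hc => ?_⟩
      rw [mem_singleton_iff, Pt.iso.injEq] at hc
      omega
  · intro j u _
    cases p with
    | base y' => exact mem_of_superset univ_mem (fun _ _ => by simp)
    | lim j' u' => exact mem_of_superset univ_mem (fun _ _ => by simp)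
    | iso y' j' u' =>
      apply mem_of_superset (Ultrafilter.compl_mem_iff_notMem.mpr (u.2.2 y'))
      intro y hy hc
      rw [mem_singleton_iff, Pt.iso.injEq] at hc
      exact hy hc.1

lemma not_normal : ¬ NormalSpace Pt := by
  intro h
  have hA : IsClosed (range Pt.base) := by
    rw [← isOpen_compl_iff, isOpen_iff]
    constructor
    · intro y hy
      exact absurd ⟨y, rfl⟩ hy
    · intro j u _
      exact mem_of_superset univ_mem (fun _ _ => by simp)
  have hB : IsClosed {p | ∃ j u, p = Pt.lim j u} := by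
    rw [← isOpen_compl_iff, isOpen_iff]
    constructor
    · intro y _
      exact ⟨0, fun j _ u => by simp⟩
    · intro j u hu
      exact absurd ⟨j, u, rfl⟩ hu
  have hdis : Disjoint (range Pt.base) {p | ∃ j u, p = Pt.lim j u} := by
    rw [Set.disjoint_left]
    rintro _ ⟨y, rfl⟩ ⟨j, u, hc⟩
    exact absurd hc (by simp)
  obtain ⟨U, V, hU, hV, hAU, hBV, hUV⟩ := h.normal _ _ hA hB hdis
  choose n hn using fun y : ℝ => hU.1 y (hAU ⟨y, rfl⟩)
  -- an infinite fibre
  obtain ⟨m, hm⟩ : ∃ m : ℕ, (n ⁻¹' {m}).Infinite := by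
    by_contra hc
    push Not at hc
    have h1 : (univ : Set ℝ) = ⋃ m, n ⁻¹' {m} := by ext y; simp
    have h2 : (univ : Set ℝ).Countable := by
      rw [h1]
      exact countable_iUnion fun m => (hc m).countable
    exact not_countable_univ h2
  haveI := hm.to_subtype
  let e : ℕ → ℝ := fun k => (Infinite.natEmbedding (n ⁻¹' {m}) k : ℝ)
  have he : Function.Injective e := fun a b hab =>
    (Infinite.natEmbedding (n ⁻¹' {m})).injective (Subtype.ext hab)
  have hem : ∀ k, n (e k) = m := fun k => (Infinite.natEmbedding (n ⁻¹' {m}) k).2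
  have hne : NeBot (map e cofinite) := inferInstance
  let v : Ultrafilter ℝ := Ultrafilter.of (map e cofinite)
  have hvle : (v : Filter ℝ) ≤ map e cofinite := Ultrafilter.of_le _
  let u : UF := ⟨v, ⟨range e, countable_range e, hvle (by
    rw [mem_map]
    exact mem_of_superset univ_mem (fun k _ => ⟨k, rfl⟩))⟩, by
    intro y hy
    have h1 : {y}ᶜ ∈ map e cofinite := by
      rw [mem_map, mem_cofinite]
      apply Set.Finite.subset (s := e ⁻¹' {y})
      · exact (Set.finite_singleton y).preimage he.injOn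
      · intro k hk
        simpa using hk
    exact Ultrafilter.compl_mem_iff_notMem.mp (hvle h1) hy⟩
  have h1 := hV.2 m u (hBV ⟨m, u, rfl⟩)
  have h2 : range e ∈ u.1 := hvle (by
    rw [mem_map]
    exact mem_of_superset univ_mem (fun k _ => ⟨k, rfl⟩))
  obtain ⟨y, hy1, ⟨k, rfl⟩⟩ := u.1.nonempty_of_mem (inter_mem h1 h2)
  have h3 : Pt.iso (e k) m u ∈ U := hn (e k) m (by rw [hem k]) u
  exact disjoint_left.mp hUV h3 hy1

/-- There is a completely regular `T₁` space which is not normal (so not perfectly normal) and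
all of whose subsets are `1`-embedded. -/
theorem result : ∃ (X : Type) (_ : TopologicalSpace X), T1Space X ∧ CompletelyRegularSpace X ∧
    ¬ NormalSpace X ∧ ¬ PerfectlyNormalSpace X ∧ ∀ E : Set X, OneEmbedded E :=
  ⟨Pt, inferInstance, inferInstance, inferInstance, not_normal,
    fun h => not_normal h.toNormalSpace, oneEmbedded⟩

end Pool.Agent.Results.MP_493890_gt.AllOneEmbedded
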